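import Mathlib
import Pool.Agent.H55.Sharp

/-!
# Sharpness of the Kővári–Sós–Turán exponent as a statement about all graphs of bounded degree

Let `1 < α < 2` and let `A` be a complete bipartite graph `K_{r,s}` with `r, s ≥ 2` (or any other
graph of diameter at most three with at least two edges). The following are equivalent.

* (T) `ex(n, A) ≥ c n ^ α` for some `c > 0` and all large `n`.
* (D) Every finite graph with all degrees at most `d` is the union of at most `C d ^ (2 - α)`
  subgraphs without `A` with all degrees at most `C d ^ (α - 1)`. There is no condition on the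
  number of vertices.
* (E) Every finite graph `G` with all degrees at most `d` has a subgraph without `A` with at least
  `c d ^ (α - 2) e(G)` edges.
* (R) The edges of the complete graph on `n ≤ c q ^ (1 / (2 - α))` vertices can be coloured with
  `q` colours without an `A` in one colour.

No upper bound for `ex(n, A)` is used, so the equivalence holds at every exponent, also far below
`2 - 1 / r`, and it is exact: nothing is lost, not even a power of a logarithm. So the exponent
`2 - 1 / r` is sharp for `r` if and only if (D), or (E), or (R) holds for `K_{r,r}` and every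
`α < 2 - 1 / r`.

The new point compared with the case `α = 2 - 1 / r` (`MP_7682b0_co.DecompositionForm`) is the
splitting of vertices: a graph without `K_{r,s}` and with about `n ^ α` edges may have vertices of
large degree and there is no upper bound for the number of edges to remove them, but a vertex can be
split into vertices of degree at most `n ^ (α - 1)`, because the split graph maps to the old one by
a locally injective homomorphism.
-/

set_option autoImplicit false

namespace Pool.Agent.Results.MP_9a747a_co.DecompositionForm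

open SimpleGraph Pool.Agent.H55

/-- The complete bipartite graph `K_{r,s}`. -/
abbrev K (r s : ℕ) : SimpleGraph (Fin r ⊕ Fin s) := completeBipartiteGraph (Fin r) (Fin s)

/-- The exponent `2 - 1 / r` is sharp for `r`, as in the question: for every `s ≥ r` and every
`ε > 0` one has `ex (n, K_{r,s}) ≥ n ^ (2 - 1 / r - ε)` for all large `n`. -/
def Sharp (r : ℕ) : Prop :=
  ∀ s : ℕ, r ≤ s → ∀ ε : ℝ, 0 < ε → ∃ N : ℕ, ∀ n : ℕ, N ≤ n →
    (n : ℝ) ^ (2 - 1 / (r : ℝ) - ε) ≤ (extremalNumber n (K r s) : ℝ)

lemma k_diam {r s : ℕ} (hr : 1 ≤ r) (hs : 1 ≤ s) : DiamLeThree (K r s) := by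
  refine diam_of_dec ?_
  rintro (a | b) (a' | b')
  · right; right; left
    exact ⟨Sum.inr ⟨0, hs⟩, by simp, by simp⟩
  · right; left
    simp
  · right; left
    simp
  · right; right; left
    exact ⟨Sum.inl ⟨0, hr⟩, by simp, by simp⟩

lemma k_cherry {r s : ℕ} (hr : 2 ≤ r) (hs : 1 ≤ s) :
    ∃ x y z, (K r s).Adj x y ∧ (K r s).Adj x z ∧ y ≠ z :=
  ⟨Sum.inr ⟨0, hs⟩, Sum.inl ⟨0, by omega⟩, Sum.inl ⟨1, by omega⟩, by simp, by simp, by simp⟩

lemma sharp_iff {r : ℕ} : Sharp r ↔ SharpAt (K r r) (2 - 1 / (r : ℝ)) := by
  constructor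
  · intro h ε hε
    exact h r le_rfl ε hε
  · intro h s hs ε hε
    obtain ⟨N, hN⟩ := h ε hε
    refine ⟨N, fun n hn => (hN n hn).trans ?_⟩
    have hle : K r r ⊑ K r s := by
      refine ⟨⟨⟨Sum.map id (Fin.castLE hs), ?_⟩, ?_⟩⟩
      · rintro (a | b) (a' | b') h <;> simp_all
      · rintro (a | b) (a' | b') h
        · simpa using h
        · simp at h
        · simp at h
        · simpa using h
    exact_mod_cast hle.extremalNumber_le

/-- **Sharpness of the exponent, decompositions of all graphs of bounded degree, and Ramsey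
numbers.** -/
theorem result :
    -- (1) the equivalences at every exponent
    (∀ r s : ℕ, 2 ≤ r → 2 ≤ s → ∀ α : ℝ, 1 < α → α < 2 →
      (TuranAt (K r s) α ↔ DecompositionAt (K r s) α) ∧
      (TuranAt (K r s) α ↔ RelativeAt (K r s) α) ∧
      (TuranAt (K r s) α ↔ RamseyAt (K r s) α)) ∧
    -- (2) three equivalent forms of the question for each `r`
    (∀ r : ℕ, 2 ≤ r →
      (Sharp r ↔ ∀ α : ℝ, 1 < α → α < 2 - 1 / (r : ℝ) → DecompositionAt (K r r) α) ∧
      (Sharp r ↔ ∀ α : ℝ, 1 < α → α < 2 - 1 / (r : ℝ) → RelativeAt (K r r) α) ∧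
      (Sharp r ↔ ∀ α : ℝ, 1 < α → α < 2 - 1 / (r : ℝ) → RamseyAt (K r r) α)) := by
  refine ⟨fun r s hr hs α h1 h2 => diam3 (k_diam (by omega) (by omega))
    (k_cherry hr (by omega)) α h1 h2, fun r hr => ?_⟩
  have hr1 : (2 : ℝ) ≤ r := by exact_mod_cast hr
  have h1 : 0 < 1 / (r : ℝ) := by positivity
  have h2 : 1 / (r : ℝ) ≤ 1 / 2 := one_div_le_one_div_of_le (by norm_num) hr1
  rw [sharp_iff]
  exact sharp_equiv (k_diam (by omega) (by omega)) (k_cherry hr (by omega))
    (by linarith) (by linarith)

end Pool.Agent.Results.MP_9a747a_co.DecompositionForm
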